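import Pool.Agent.H225.Fin1

/-!
# Restricted projections onto the tangent hyperplanes of the sphere

Let `n ≥ 4`, let `Z ⊆ ℝⁿ` be analytic and let `S ⊆ S^{n-1}` be a `C²` submanifold of dimension
`n - 2` with sectional curvature `> 1`. Then `dim π_{x^⊥}(Z) = min (dim Z) (n - 1)` for
`H^{n-2}`-almost every `x ∈ S`.

Idea. By Gauss's equation the second fundamental form of `S` in the sphere is definite. Hence every
height function `x ↦ ⟨x, e⟩`, `|e| = 1`, which has a critical zero is, near that zero, a strictly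
convex or strictly concave function of at least two variables, and such functions satisfy
`|{|f| < ε}| ≤ C ε` (integrate along the rays from the minimum point). So
`H^{n-2} {x ∈ S : |⟨x, e⟩| < ε} ≤ C ε` locally, uniformly in `e`. Writing the Riesz kernel as a
superposition of Gaussians this gives `∫_S I_s(π_{x^⊥} μ) dx ≤ C I_s(μ)` for all `0 < s < n - 1`.
-/

set_option autoImplicit false

open MeasureTheory Metric Set Filter Module
open scoped ENNReal NNReal Topology RealInnerProductSpace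

namespace Pool.Agent.Results.MP_c56c8e_an.RestrictedProjections

/-- Euclidean space `ℝⁿ`. -/
abbrev E (n : ℕ) := EuclideanSpace ℝ (Fin n)

/-- The Euclidean inner product. -/
noncomputable def ip {n : ℕ} (x y : E n) : ℝ := inner ℝ x y

/-- The derivative `Dφ(u) v`. -/
noncomputable def D {m n : ℕ} (φ : E m → E n) (u v : E m) : E n := fderiv ℝ φ u v

/-- The second derivative `D²φ(u)(v, w)`: the derivative at `u` in the direction `v` of
`x ↦ Dφ(x) w`. -/
noncomputable def D2 {m n : ℕ} (φ : E m → E n) (u v w : E m) : E n := D (fun x => D φ x w) u v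

/-- `φ`, defined on the open set `U ⊆ ℝᵐ`, is a `C²` local parametrisation of `S ⊆ ℝⁿ`: it is `C²`,
it has injective derivatives, and it is a homeomorphism of `U` onto the relatively open piece
`S ∩ W` of `S`. -/
structure IsLocalParam {m n : ℕ} (S : Set (E n)) (U : Set (E m)) (W : Set (E n))
    (φ : E m → E n) : Prop where
  isOpen_dom : IsOpen U
  isOpen_cod : IsOpen W
  contDiffOn : ContDiffOn ℝ 2 φ U
  injective_fderiv : ∀ u ∈ U, Function.Injective (D φ u)
  isEmbedding : Topology.IsEmbedding (fun u : U => φ u)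
  image_eq : φ '' U = S ∩ W

/-- `S ⊆ ℝⁿ` is an (embedded) `C²` submanifold of dimension `m`. -/
def IsC2Submanifold (m n : ℕ) (S : Set (E n)) : Prop :=
  ∀ x ∈ S, ∃ (U : Set (E m)) (W : Set (E n)) (φ : E m → E n), IsLocalParam S U W φ ∧ x ∈ W

/-- The normal space at `φ u` of the submanifold parametrised by `φ`: the orthogonal complement in
`ℝⁿ` of the tangent space, the range of `Dφ(u)`. -/
noncomputable def normalSpace {m n : ℕ} (φ : E m → E n) (u : E m) : Submodule ℝ (E n) :=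
  (Submodule.span ℝ (Set.range (D φ u)))ᗮ

/-- The second fundamental form `II(v, w)` in `ℝⁿ` (vector valued): the normal component of
`D²φ(u)(v, w)`. -/
noncomputable def secondForm {m n : ℕ} (φ : E m → E n) (u v w : E m) : E n :=
  (normalSpace φ u).starProjection (D2 φ u v w)

/-- The sectional curvature at `φ u` of the plane spanned by `Dφ(u) v` and `Dφ(u) w`, for the metric
induced from `ℝⁿ` (Gauss's equation). -/
noncomputable def sectionalCurvature {m n : ℕ} (φ : E m → E n) (u v w : E m) : ℝ :=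
  (ip (secondForm φ u v v) (secondForm φ u w w) - ip (secondForm φ u v w) (secondForm φ u v w)) /
    (ip (D φ u v) (D φ u v) * ip (D φ u w) (D φ u w) - ip (D φ u v) (D φ u w) ^ 2)

/-- Every sectional curvature of the submanifold `S`, at every point, is greater than `κ`. -/
def SectionalCurvatureGT (m n : ℕ) (κ : ℝ) (S : Set (E n)) : Prop :=
  ∀ (U : Set (E m)) (W : Set (E n)) (φ : E m → E n), IsLocalParam S U W φ →
    ∀ u ∈ U, ∀ v w : E m, LinearIndependent ℝ ![v, w] → κ < sectionalCurvature φ u v w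

/-- The orthogonal projection `π_{x^⊥}` of `ℝⁿ` onto `x^⊥`, the tangent hyperplane of the unit
sphere at `x`. -/
noncomputable def proj {n : ℕ} (x z : E n) : E n := (ℝ ∙ x)ᗮ.starProjection z

lemma D2_eq {m n : ℕ} (U : Set (E m)) (hU : IsOpen U) (φ : E m → E n) (hφ : ContDiffOn ℝ 2 φ U)
    (u : E m) (hu : u ∈ U) (v w : E m) : D2 φ u v w = fderiv ℝ (fderiv ℝ φ) u v w := by
  have hfd1 : ContDiffOn ℝ 1 (fderiv ℝ φ) U := hφ.fderiv_of_isOpen hU (by norm_num)
  have hdd : DifferentiableAt ℝ (fderiv ℝ φ) u :=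
    (hfd1.differentiableOn (by norm_num)).differentiableAt (hU.mem_nhds hu)
  have h0 : HasFDerivAt (fun u => fderiv ℝ φ u w) ((fderiv ℝ (fderiv ℝ φ) u).flip w) u := by
    have := hdd.hasFDerivAt.clm_apply (hasFDerivAt_const w u)
    refine this.congr_fderiv ?_
    ext x : 1
    simp
  show fderiv ℝ (fun x => fderiv ℝ φ x w) u v = _
  rw [h0.fderiv]
  rfl

lemma normalSpace_eq {m n : ℕ} (φ : E m → E n) (u : E m) :
    normalSpace φ u = (LinearMap.range (fderiv ℝ φ u : E m →ₗ[ℝ] E n))ᗮ := by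
  unfold normalSpace
  congr 1
  have h1 : Set.range (D φ u) = (LinearMap.range (fderiv ℝ φ u : E m →ₗ[ℝ] E n) : Set (E n)) := by
    ext x; simp [D]
  rw [h1, Submodule.span_eq]

lemma secondForm_eq {m n : ℕ} (U : Set (E m)) (hU : IsOpen U) (φ : E m → E n)
    (hφ : ContDiffOn ℝ 2 φ U) (u : E m) (hu : u ∈ U) (v w : E m) :
    secondForm φ u v w = (LinearMap.range (fderiv ℝ φ u : E m →ₗ[ℝ] E n))ᗮ.starProjection
      (fderiv ℝ (fderiv ℝ φ) u v w) := by
  have h : ∀ A B : Submodule ℝ (E n), A = B → ∀ x, A.starProjection x = B.starProjection x := by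
    rintro A _ rfl x; rfl
  unfold secondForm
  rw [D2_eq U hU φ hφ u hu, h _ _ (normalSpace_eq φ u)]

lemma proj_image {n : ℕ} (x : E n) (Z : Set (E n)) :
    dimH (proj x '' Z) = dimH (Pool.Agent.H225.En.pj x '' Z) := by
  have h1 : proj x '' Z = Subtype.val '' (Pool.Agent.H225.En.pj x '' Z) := by
    rw [image_image]; rfl
  rw [h1]
  exact isometry_subtype_coe.dimH_image _

lemma upper {n : ℕ} (Z : Set (E n)) (x : E n) (hx : ‖x‖ = 1) (hn : 1 ≤ n) :
    dimH (proj x '' Z) ≤ min (dimH Z) ((n - 1 : ℕ) : ℝ≥0∞) := by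
  rw [proj_image]
  refine le_min ((Pool.Agent.H225.En.pj x).lipschitz.dimH_image_le Z) ?_
  have h1 : finrank ℝ (ℝ ∙ x)ᗮ = n - 1 := by
    have h2 := Submodule.finrank_add_finrank_orthogonal (ℝ ∙ x)
    rw [finrank_span_singleton (by intro h0; rw [h0, norm_zero] at hx; norm_num at hx),
      finrank_euclideanSpace_fin] at h2
    omega
  calc dimH (Pool.Agent.H225.En.pj x '' Z) ≤ dimH (univ : Set (ℝ ∙ x)ᗮ) :=
        dimH_mono (subset_univ _)
    _ = _ := by rw [Real.dimH_univ_eq_finrank, h1]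

/-- the set of points with a small projection is locally null -/
lemma local_null {n : ℕ} (hn : 4 ≤ n) (Z : Set (E n)) (hZ : AnalyticSet Z) (S : Set (E n))
    (hS : S ⊆ sphere 0 1) (hC2 : IsC2Submanifold (n - 2) n S)
    (hK : SectionalCurvatureGT (n - 2) n 1 S) (s : ℝ) (hs : 0 < s) (hsn : s < n - 1)
    (hsZ : ENNReal.ofReal s < dimH Z) :
    μH[((n - 2 : ℕ) : ℝ)] {x ∈ S | ¬ ENNReal.ofReal s ≤ dimH (proj x '' Z)} = 0 := by
  refine measure_null_of_locally_null _ fun x hx => ?_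
  obtain ⟨U, W, φ, hφ, hxW⟩ := hC2 x hx.1
  have hxi : x ∈ φ '' U := by rw [hφ.image_eq]; exact ⟨hx.1, hxW⟩
  obtain ⟨u₀, hu₀, rfl⟩ := hxi
  have hnorm : ∀ u ∈ U, ‖φ u‖ = 1 := by
    intro u hu
    have : φ u ∈ S ∩ W := by rw [← hφ.image_eq]; exact mem_image_of_mem _ hu
    simpa using hS this.1
  -- transversality
  obtain ⟨δ₁, hδ₁, C, hC, hkey⟩ := Pool.Agent.H225.En.local_key (by omega) U hφ.isOpen_dom φ
    hφ.contDiffOn u₀ hu₀ (Pool.Agent.H225.En.curvature_key (by omega) (by omega) U hφ.isOpen_dom φ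
      hφ.contDiffOn hnorm u₀ hu₀ (hφ.injective_fderiv u₀ hu₀)
      (fun v w hvw => by
        have h := hK U W φ hφ u₀ hu₀ v w hvw
        unfold sectionalCurvature ip D at h
        rw [secondForm_eq U hφ.isOpen_dom φ hφ.contDiffOn u₀ hu₀,
          secondForm_eq U hφ.isOpen_dom φ hφ.contDiffOn u₀ hu₀,
          secondForm_eq U hφ.isOpen_dom φ hφ.contDiffOn u₀ hu₀] at h
        simpa only [real_inner_self_eq_norm_sq] using h))
  -- Lipschitz
  obtain ⟨K, t, ht, hLip⟩ := ((hφ.contDiffOn.contDiffAt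
    (hφ.isOpen_dom.mem_nhds hu₀)).of_le (by norm_num : (1 : WithTop ℕ∞) ≤ 2)).exists_lipschitzOnWith
  obtain ⟨δ₂, hδ₂, hball⟩ := Metric.nhds_basis_closedBall.mem_iff.1
    (inter_mem ht (hφ.isOpen_dom.mem_nhds hu₀))
  set δ := min δ₁ δ₂ with hδ
  have hδ0 : 0 < δ := lt_min hδ₁ hδ₂
  have hsub : closedBall u₀ δ ⊆ t ∩ U :=
    (closedBall_subset_closedBall (min_le_right _ _)).trans hball
  have hnull := Pool.Agent.H225.En.param_null Z hZ s hs hsn hsZ φ u₀ δ
    (hφ.contDiffOn.continuousOn.mono fun u hu => (hsub hu).2) (fun u hu => hnorm u (hsub hu).2)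
    C hC (fun e he ε hε => (measure_mono (by
      rintro u ⟨hu1, hu2⟩
      exact ⟨closedBall_subset_closedBall (min_le_left _ _) hu1, hu2⟩)).trans (hkey e he ε hε))
  set N := {u ∈ closedBall u₀ δ | ¬ ENNReal.ofReal s ≤ dimH (Pool.Agent.H225.En.pj (φ u) '' Z)}
    with hN
  have hNH : μH[((n - 2 : ℕ) : ℝ)] N = 0 := by
    have h1 := isAddHaarMeasure_hausdorffMeasure (E := E (n - 2))
    rw [finrank_euclideanSpace_fin] at h1
    have h2 : (μH[((n - 2 : ℕ) : ℝ)] : Measure (E (n - 2))) ≪ volume :=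
      Measure.absolutelyContinuous_isAddHaarMeasure _ _
    exact h2 hnull
  refine ⟨{x ∈ S | ¬ ENNReal.ofReal s ≤ dimH (proj x '' Z)} ∩ φ '' (ball u₀ δ), ?_, ?_⟩
  · -- a neighbourhood
    have hopen : IsOpen (Subtype.val ⁻¹' (ball u₀ δ) : Set U) := isOpen_ball.preimage
      continuous_subtype_val
    obtain ⟨O, hO, hOeq⟩ := hφ.isEmbedding.isInducing.isOpen_iff.1 hopen
    have hOmem : ∀ u (hu : u ∈ U), φ u ∈ O ↔ u ∈ ball u₀ δ := fun u hu =>
      Set.ext_iff.1 hOeq ⟨u, hu⟩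
    have hmem : φ u₀ ∈ O := (hOmem u₀ hu₀).2 (mem_ball_self hδ0)
    rw [mem_nhdsWithin]
    refine ⟨O ∩ W, hO.inter hφ.isOpen_cod, ⟨hmem, hxW⟩, ?_⟩
    rintro y ⟨⟨hyO, hyW⟩, hyS⟩
    refine ⟨hyS, ?_⟩
    have hyi : y ∈ φ '' U := by rw [hφ.image_eq]; exact ⟨hyS.1, hyW⟩
    obtain ⟨u, hu, rfl⟩ := hyi
    exact ⟨u, (hOmem u hu).1 hyO, rfl⟩
  · have h3 : {x ∈ S | ¬ ENNReal.ofReal s ≤ dimH (proj x '' Z)} ∩ φ '' (ball u₀ δ) ⊆ φ '' N := by
      rintro _ ⟨⟨_, hy⟩, u, hu, rfl⟩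
      rw [proj_image] at hy
      exact ⟨u, ⟨ball_subset_closedBall hu, hy⟩, rfl⟩
    refine measure_mono_null h3 ?_
    have h4 := (hLip.mono (show N ⊆ t from fun u hu => (hsub hu.1).1)).hausdorffMeasure_image_le
      (d := ((n - 2 : ℕ) : ℝ)) (by positivity)
    rw [hNH, mul_zero] at h4
    exact le_antisymm h4 zero_le

/-- **Restricted projections onto the tangent hyperplanes of the sphere.** -/
theorem result : ∀ n : ℕ, 4 ≤ n → ∀ Z : Set (E n), AnalyticSet Z → ∀ S : Set (E n),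
    S ⊆ sphere 0 1 → IsC2Submanifold (n - 2) n S → SectionalCurvatureGT (n - 2) n 1 S →
    μH[((n - 2 : ℕ) : ℝ)]
      {x ∈ S | dimH (proj x '' Z) ≠ min (dimH Z) ((n - 1 : ℕ) : ℝ≥0∞)} = 0 := by
  intro n hn Z hZ S hS hC2 hK
  -- countably many thresholds
  have hsub : {x ∈ S | dimH (proj x '' Z) ≠ min (dimH Z) ((n - 1 : ℕ) : ℝ≥0∞)} ⊆
      ⋃ q : ℚ, {x ∈ S | (0 < (q : ℝ) ∧ (q : ℝ) < n - 1 ∧ ENNReal.ofReal q < dimH Z) ∧
        ¬ ENNReal.ofReal q ≤ dimH (proj x '' Z)} := by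
    rintro x ⟨hxS, hx⟩
    have hx1 : ‖x‖ = 1 := by simpa using hS hxS
    have hlt := lt_of_le_of_ne (upper Z x hx1 (by omega)) hx
    obtain ⟨q, hq0, hq1, hq2⟩ := ENNReal.lt_iff_exists_rat_btwn.1 hlt
    rw [mem_iUnion]
    have hq1' : dimH (proj x '' Z) < ENNReal.ofReal q := hq1
    have hq2' : ENNReal.ofReal q < min (dimH Z) ((n - 1 : ℕ) : ℝ≥0∞) := hq2
    have hqpos : (0 : ℝ) < q := by
      by_contra hcon
      push Not at hcon
      rw [ENNReal.ofReal_of_nonpos hcon] at hq1'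
      exact not_lt_zero hq1'
    refine ⟨q, hxS, ⟨hqpos, ?_, lt_of_lt_of_le hq2' (min_le_left _ _)⟩, not_le.2 hq1'⟩
    have h1 := lt_of_lt_of_le hq2' (min_le_right _ _)
    have h2 : ((n - 1 : ℕ) : ℝ≥0∞) = ENNReal.ofReal ((n - 1 : ℕ) : ℝ) := by simp
    rw [h2, ENNReal.ofReal_lt_ofReal_iff_of_nonneg hqpos.le] at h1
    rw [Nat.cast_sub (by omega)] at h1
    simpa using h1
  refine measure_mono_null hsub (measure_iUnion_null fun q => ?_)
  by_cases hq : 0 < (q : ℝ) ∧ (q : ℝ) < n - 1 ∧ ENNReal.ofReal q < dimH Z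
  · refine measure_mono_null ?_ (local_null hn Z hZ S hS hC2 hK q hq.1 hq.2.1 hq.2.2)
    rintro x ⟨hxS, -, hx⟩
    exact ⟨hxS, hx⟩
  · convert measure_empty (μ := μH[((n - 2 : ℕ) : ℝ)])
    ext x
    simp only [mem_ofPred_eq, mem_empty_iff_false, iff_false]
    rintro ⟨-, h, -⟩
    exact hq h

end Pool.Agent.Results.MP_c56c8e_an.RestrictedProjections
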